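import Pool.Agent.helper92.VT.Spec

/-! # Row TFX of project VT: fixing the exponents of some variables -/

universe u

namespace Pool.Agent.helper92.VT

open MvPolynomial Pool.Agent.helper92.VC

theorem TFX_ovr {ι : Type} [DecidableEq ι] (u l : List ι) (γ δ e : ι → ℕ) :
    ovr l γ (ovr u δ e) = ovr u (fun x => if x ∈ l then γ x else δ x) (ovr l γ e) := by
  funext x
  unfold ovr
  by_cases h1 : x ∈ l <;> by_cases h2 : x ∈ u <;> simp [h1, h2]

theorem TFX_dim {ι : Type} [DecidableEq ι] (K : Type u) [Field K] (w : ℕ) (S : Set ((ι → ℕ) → K))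
    (u l : List ι) (γ : ι → ℕ) (h : DimLE K w {T' | ∃ T ∈ S, ∃ γ, T' = fixs u γ T}) :
    DimLE K w {T' | ∃ T ∈ fixs l γ '' S, ∃ δ, T' = fixs u δ T} := by
  obtain ⟨g, hg⟩ := h
  refine ⟨fun i => fixs l γ (g i), ?_⟩
  rintro T' ⟨_, ⟨T, hT, rfl⟩, δ, rfl⟩
  have h1 : fixs u (fun x => if x ∈ l then γ x else δ x) T ∈ Submodule.span K (Set.range g) :=
    hg ⟨T, hT, _, rfl⟩
  have h2 : fixs u δ (fixs l γ T) =
      LinearMap.funLeft K K (ovr l γ) (fixs u (fun x => if x ∈ l then γ x else δ x) T) := by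
    funext e
    rw [LinearMap.funLeft_apply]
    unfold fixs
    rw [TFX_ovr]
  have h3 := Submodule.mem_map_of_mem (f := LinearMap.funLeft K K (ovr l γ)) h1
  rw [Submodule.map_span, ← Set.range_comp] at h3
  rw [h2]
  exact h3

theorem TFX : TFX_stmt.{u} := by
  intro ι _ K _ w t
  induction t with
  | leaf x =>
    intro S l γ h
    exact TFX_dim K w S [x] l γ h
  | node a b iha ihb =>
    intro S l γ h
    exact ⟨TFX_dim K w S _ l γ h.1, iha S l γ h.2.1, ihb S l γ h.2.2⟩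

end Pool.Agent.helper92.VT
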